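import Mathlib

/-!
# MP_24e294_lc, Q1: indispensable irreducible transformations of arbitrarily high order

Let `q = 2k + 1` be a prime.  Among the words with exactly two `b`, with `q` letters `a`, `q`
letters `c`, `|w|_ab = |w|_bc = q` and `|w|_abc = kq`, the numbers `α` and `β` of letters `a` and
`c` between the two letters `b` satisfy `α β = q`.  So `α = 1` or `α = q`, and a direct step
changes `α` by at most `2`.  A pair of words at minimal distance, one with `α = 1` and one with
`α = q`, is an irreducible transformation which no chain of shorter ones can replace.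
-/

namespace Pool.Agent.Results.MP_24e294_lc.IndispensableHighOrder

/-- The ordered alphabet `a < b < c`. -/
inductive Letter : Type
  | a | b | c
  deriving DecidableEq

open Letter

/-- Words. -/
abbrev Word : Type := List Letter

/-- `occ u w` is the number of occurrences of `u` as a scattered subword of `w`. -/
def occ : Word → Word → ℕ
  | [], _ => 1
  | _ :: _, [] => 0
  | x :: u, y :: w => occ (x :: u) w + (if x = y then occ u w else 0)

/-- The pairs of `R`. -/
inductive Rule : Word → Word → Prop
  | ac : Rule [a, c] [c, a]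
  | ab (x : Word) : Rule ([a, b] ++ x ++ [b, a]) ([b, a] ++ x ++ [a, b])
  | bc (x : Word) : Rule ([b, c] ++ x ++ [c, b]) ([c, b] ++ x ++ [b, c])

/-- A direct step. -/
def Step (w w' : Word) : Prop :=
  ∃ x y y' z : Word, w = x ++ y ++ z ∧ w' = x ++ y' ++ z ∧ (Rule y y' ∨ Rule y' y)

/-- `Steps n w w'`: `w'` is reached from `w` by exactly `n` direct steps. -/
inductive Steps : ℕ → Word → Word → Prop
  | zero (w : Word) : Steps 0 w w
  | succ {n : ℕ} {w w' w'' : Word} : Step w w' → Steps n w' w'' → Steps (n + 1) w w''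

/-- `w ⇒_R w'`. -/
def DerR (w w' : Word) : Prop := ∃ n, Steps n w w'

/-- The distance. -/
noncomputable def dist (w w' : Word) : ℕ := sInf {n | Steps n w w'}

/-- `w ⇒_𝔓 w'`. -/
def DerP (w w' : Word) : Prop := DerR w w' ∧ occ [a, b, c] w = occ [a, b, c] w'

/-- The transformation `w ⇒_𝔓 w'` is irreducible. -/
def Irred (w w' : Word) : Prop :=
  w ≠ w' ∧ DerP w w' ∧
    ¬ ∃ w'', w'' ≠ w ∧ w'' ≠ w' ∧ DerP w w'' ∧ DerP w'' w' ∧ dist w w'' + dist w'' w' = dist w w'

/-- `w ⇒_𝔓 w'` is expressible by irreducible transformations of order `< n`. -/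
def Expressible (n : ℕ) (w w' : Word) : Prop :=
  Relation.ReflTransGen (fun x y => Irred x y ∧ dist x y < n) w w'

/-! ### Counting in concatenations -/

theorem occ_nil (w : Word) : occ [] w = 1 := by cases w <;> rfl

theorem occ1 (l : Letter) (x y : Word) : occ [l] (x ++ y) = occ [l] x + occ [l] y := by
  induction x with
  | nil => simp [occ]
  | cons h x ih =>
    simp only [List.cons_append, occ, ih, occ_nil]
    omega

theorem occ2 (l m : Letter) (x y : Word) :
    occ [l, m] (x ++ y) = occ [l, m] x + occ [l] x * occ [m] y + occ [l, m] y := by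
  induction x with
  | nil => simp [occ]
  | cons h x ih =>
    simp only [List.cons_append, occ, ih, occ_nil, occ1]
    split_ifs <;> ring

theorem occ3 (l m n : Letter) (x y : Word) :
    occ [l, m, n] (x ++ y) = occ [l, m, n] x + occ [l, m] x * occ [n] y
      + occ [l] x * occ [m, n] y + occ [l, m, n] y := by
  induction x with
  | nil => simp [occ]
  | cons h x ih =>
    simp only [List.cons_append, occ, ih, occ_nil, occ1, occ2]
    split_ifs <;> ring

/-! ### Invariants of a direct step -/

/-- The statistics preserved by a rule. -/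
theorem rule_inv {y y' : Word} (h : Rule y y') :
    occ [a] y = occ [a] y' ∧ occ [b] y = occ [b] y' ∧ occ [c] y = occ [c] y' ∧
    occ [a, b] y = occ [a, b] y' ∧ occ [b, c] y = occ [b, c] y' ∧
    occ [b, a] y = occ [b, a] y' := by
  cases h with
  | ac => refine ⟨?_, ?_, ?_, ?_, ?_, ?_⟩ <;> simp [occ]
  | ab x =>
    refine ⟨?_, ?_, ?_, ?_, ?_, ?_⟩ <;> simp only [occ1, occ2] <;> simp [occ] <;> ring
  | bc x =>
    refine ⟨?_, ?_, ?_, ?_, ?_, ?_⟩ <;> simp only [occ1, occ2] <;> simp [occ] <;> ring

/-- A rule changes `|·|_bab` by at most `2` when there are only two letters `b`. -/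
theorem rule_bab {y y' : Word} (h : Rule y y') (hb : occ [b] y ≤ 2) :
    occ [b, a, b] y' ≤ occ [b, a, b] y + 2 ∧ occ [b, a, b] y ≤ occ [b, a, b] y' := by
  cases h with
  | ac => simp [occ]
  | ab x =>
    have h0 : occ [b] x = 0 := by
      simp only [occ1] at hb
      simp [occ] at hb
      omega
    simp only [occ1, occ2, occ3]
    simp [occ, h0]
    all_goals omega
  | bc x =>
    have h0 : occ [b] x = 0 := by
      simp only [occ1] at hb
      simp [occ] at hb
      omega
    simp only [occ1, occ2, occ3]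
    simp [occ, h0]
    all_goals omega

/-- What a direct step preserves. -/
theorem step_inv {w w' : Word} (h : Step w w') :
    occ [b] w = occ [b] w' ∧ occ [a, b] w = occ [a, b] w' ∧ occ [b, c] w = occ [b, c] w' := by
  obtain ⟨x, y, y', z, rfl, rfl, hr⟩ := h
  have key : occ [a] y = occ [a] y' ∧ occ [b] y = occ [b] y' ∧ occ [c] y = occ [c] y' ∧
      occ [a, b] y = occ [a, b] y' ∧ occ [b, c] y = occ [b, c] y' ∧
      occ [b, a] y = occ [b, a] y' := by
    rcases hr with hr | hr
    · exact rule_inv hr
    · obtain ⟨h1, h2, h3, h4, h5, h6⟩ := rule_inv hr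
      exact ⟨h1.symm, h2.symm, h3.symm, h4.symm, h5.symm, h6.symm⟩
  obtain ⟨h1, h2, h3, h4, h5, h6⟩ := key
  simp only [occ1, occ2, h1, h2, h3, h4, h5, h6]
  simp

/-- A direct step changes `|·|_bab` by at most `2` when there are only two letters `b`. -/
theorem step_bab {w w' : Word} (h : Step w w') (hb : occ [b] w ≤ 2) :
    occ [b, a, b] w' ≤ occ [b, a, b] w + 2 := by
  obtain ⟨x, y, y', z, rfl, rfl, hr⟩ := h
  have hy : occ [b] y ≤ 2 := by
    simp only [occ1] at hb
    omega
  have key : occ [a] y = occ [a] y' ∧ occ [b] y = occ [b] y' ∧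
      occ [a, b] y = occ [a, b] y' ∧ occ [b, a] y = occ [b, a] y' ∧
      occ [b, a, b] y' ≤ occ [b, a, b] y + 2 := by
    rcases hr with hr | hr
    · obtain ⟨h1, h2, h3, h4, h5, h6⟩ := rule_inv hr
      exact ⟨h1, h2, h4, h6, (rule_bab hr hy).1⟩
    · obtain ⟨h1, h2, h3, h4, h5, h6⟩ := rule_inv hr
      have h7 := (rule_bab hr (h2 ▸ hy)).2
      exact ⟨h1.symm, h2.symm, h4.symm, h6.symm, by omega⟩
  obtain ⟨h1, h2, h4, h6, h7⟩ := key
  simp only [occ1, occ2, occ3, h1, h2, h4, h6]
  omega

theorem steps_inv {n : ℕ} {w w' : Word} (h : Steps n w w') :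
    occ [b] w = occ [b] w' ∧ occ [a, b] w = occ [a, b] w' ∧ occ [b, c] w = occ [b, c] w' := by
  induction h with
  | zero w => simp
  | succ hs _ ih =>
    obtain ⟨h1, h2, h3⟩ := step_inv hs
    exact ⟨h1.trans ih.1, h2.trans ih.2.1, h3.trans ih.2.2⟩

theorem steps_bab {n : ℕ} {w w' : Word} (h : Steps n w w') (hb : occ [b] w ≤ 2) :
    occ [b, a, b] w' ≤ occ [b, a, b] w + 2 * n := by
  induction h with
  | zero w => simp
  | succ hs _ ih =>
    have h1 := step_bab hs hb
    have h2 := ih ((step_inv hs).1 ▸ hb)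
    omega

/-! ### `DerR` is an equivalence relation and a congruence -/

theorem Steps.trans {m n : ℕ} {u v w : Word} (h1 : Steps m u v) (h2 : Steps n v w) :
    Steps (m + n) u w := by
  induction h1 with
  | zero _ => simpa using h2
  | succ hs _ ih =>
    have := Steps.succ hs (ih h2)
    rwa [Nat.add_right_comm] at this

theorem Step.symm {w w' : Word} (h : Step w w') : Step w' w := by
  obtain ⟨x, y, y', z, h1, h2, h3⟩ := h
  exact ⟨x, y', y, z, h2, h1, h3.symm⟩

theorem Steps.symm {n : ℕ} {w w' : Word} (h : Steps n w w') : Steps n w' w := by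
  induction h with
  | zero w => exact Steps.zero w
  | succ hs _ ih =>
    have := ih.trans (Steps.succ hs.symm (Steps.zero _))
    exact this

theorem DerR.refl (w : Word) : DerR w w := ⟨0, Steps.zero w⟩

theorem DerR.symm {w w' : Word} (h : DerR w w') : DerR w' w := by
  obtain ⟨n, hn⟩ := h
  exact ⟨n, hn.symm⟩

theorem DerR.trans {u v w : Word} (h1 : DerR u v) (h2 : DerR v w) : DerR u w := by
  obtain ⟨m, hm⟩ := h1
  obtain ⟨n, hn⟩ := h2
  exact ⟨m + n, hm.trans hn⟩

theorem DerR.of_step {w w' : Word} (h : Step w w') : DerR w w' :=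
  ⟨1, Steps.succ h (Steps.zero _)⟩

theorem DerP.symm {w w' : Word} (h : DerP w w') : DerP w' w := ⟨h.1.symm, h.2.symm⟩

theorem DerP.trans {u v w : Word} (h1 : DerP u v) (h2 : DerP v w) : DerP u w :=
  ⟨h1.1.trans h2.1, h1.2.trans h2.2⟩

/-- Words over `{a, c}` can be rearranged inside any context. -/
theorem perm_der {l l' : Word} (h : l.Perm l') : (∀ x ∈ l, x = a ∨ x = c) →
    ∀ p s : Word, DerR (p ++ l ++ s) (p ++ l' ++ s) := by
  induction h with
  | nil => intro _ p s; exact DerR.refl _
  | cons x _ ih =>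
    intro hl p s
    have := ih (fun y hy => hl y (List.mem_cons_of_mem _ hy)) (p ++ [x]) s
    simpa using this
  | swap x y l =>
    intro hl p s
    have hx : x = a ∨ x = c := hl x (by simp)
    have hy : y = a ∨ y = c := hl y (by simp)
    rcases hx with rfl | rfl <;> rcases hy with rfl | rfl
    · exact DerR.refl _
    · exact DerR.of_step ⟨p, [c, a], [a, c], l ++ s, by simp, by simp, Or.inr Rule.ac⟩
    · exact DerR.of_step ⟨p, [a, c], [c, a], l ++ s, by simp, by simp, Or.inl Rule.ac⟩
    · exact DerR.refl _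
  | trans h1 _ ih1 ih2 =>
    intro hl p s
    exact (ih1 hl p s).trans (ih2 (fun x hx => hl x (h1.symm.subset hx)) p s)

/-! ### The two end words -/

theorem rep_cons (j : ℕ) (x : Letter) (r : Word) :
    List.replicate j x ++ x :: r = x :: (List.replicate j x ++ r) := by
  induction j with
  | zero => simp
  | succ j ih => simp [List.replicate_succ, ih]

/-- `a^i b a^j m a^j b a^i`-type words. -/
theorem moveA (m : Word) : ∀ i j : ℕ,
    DerR (List.replicate i a ++ [b] ++ (List.replicate j a ++ m ++ List.replicate j a) ++ [b]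
      ++ List.replicate i a)
      ([b] ++ (List.replicate (i + j) a ++ m ++ List.replicate (i + j) a) ++ [b]) := by
  intro i
  induction i with
  | zero => intro j; simp; exact DerR.refl _
  | succ i ih =>
    intro j
    have h1 := ih (j + 1)
    rw [show i + 1 + j = i + (j + 1) by ring]
    refine DerR.trans (DerR.of_step ?_) h1
    refine ⟨List.replicate i a,
      [a, b] ++ (List.replicate j a ++ m ++ List.replicate j a) ++ [b, a],
      [b, a] ++ (List.replicate j a ++ m ++ List.replicate j a) ++ [a, b],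
      List.replicate i a, ?_, ?_, Or.inl (Rule.ab _)⟩
    · simp [List.replicate_succ, rep_cons]
    · simp [List.replicate_succ, rep_cons]

theorem moveC (m : Word) : ∀ i j : ℕ,
    DerR (List.replicate j c ++ [b] ++ (List.replicate i c ++ m ++ List.replicate i c) ++ [b]
      ++ List.replicate j c)
      (List.replicate (i + j) c ++ [b] ++ m ++ [b] ++ List.replicate (i + j) c) := by
  intro i
  induction i with
  | zero => intro j; simp; exact DerR.refl _
  | succ i ih =>
    intro j
    have h1 := ih (j + 1)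
    rw [show i + 1 + j = i + (j + 1) by ring]
    refine DerR.trans (DerR.of_step ?_) h1
    refine ⟨List.replicate j c,
      [b, c] ++ (List.replicate i c ++ m ++ List.replicate i c) ++ [c, b],
      [c, b] ++ (List.replicate i c ++ m ++ List.replicate i c) ++ [b, c],
      List.replicate j c, ?_, ?_, Or.inl (Rule.bc _)⟩
    · simp [List.replicate_succ, rep_cons]
    · simp [List.replicate_succ, rep_cons]

/-- `a^k b a c^(2k+1) b a^k`. -/
def w0 (k : ℕ) : Word :=
  List.replicate k a ++ [b] ++ (a :: List.replicate (2 * k + 1) c) ++ [b] ++ List.replicate k a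

/-- `c^k b a^(2k+1) c b c^k`. -/
def w1 (k : ℕ) : Word :=
  List.replicate k c ++ [b] ++ (List.replicate (2 * k + 1) a ++ [c]) ++ [b] ++ List.replicate k c

theorem der_w0_w1 (k : ℕ) : DerR (w0 k) (w1 k) := by
  have h1 := moveA (a :: List.replicate (2 * k + 1) c) k 0
  have h2 := moveC (List.replicate (2 * k + 1) a ++ [c]) k 0
  simp only [List.replicate_zero, List.nil_append, List.append_nil, add_zero] at h1 h2
  refine DerR.trans h1 (DerR.trans ?_ h2)
  have hp : (List.replicate k a ++ (a :: List.replicate (2 * k + 1) c) ++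
      List.replicate k a).Perm
      (List.replicate k c ++ (List.replicate (2 * k + 1) a ++ [c]) ++ List.replicate k c) := by
    rw [List.perm_iff_count]
    intro x
    cases x <;> simp [List.count_append, List.count_cons, List.count_replicate] <;> omega
  have h3 := perm_der hp (by
    intro x hx
    simp only [List.mem_append, List.mem_cons, List.mem_replicate] at hx
    tauto) [b] [b]
  simpa using h3

theorem occ1_rep (l m : Letter) (n : ℕ) :
    occ [l] (List.replicate n m) = if l = m then n else 0 := by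
  induction n with
  | zero => simp [occ]
  | succ n ih =>
    simp only [List.replicate_succ, occ, ih, occ_nil]
    split_ifs <;> omega

theorem occ2_rep {l m : Letter} (h : l ≠ m) (x : Letter) (n : ℕ) :
    occ [l, m] (List.replicate n x) = 0 := by
  induction n with
  | zero => simp [occ]
  | succ n ih =>
    simp only [List.replicate_succ, occ, ih, occ1_rep]
    split_ifs with h1 h2
    · exact absurd (h1.trans h2.symm) h
    · rfl
    · rfl

theorem occ3_rep {l m : Letter} (h : l ≠ m) (r : Letter) (x : Letter) (n : ℕ) :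
    occ [r, l, m] (List.replicate n x) = 0 := by
  induction n with
  | zero => simp [occ]
  | succ n ih =>
    simp only [List.replicate_succ, occ, ih, occ2_rep h]
    simp

theorem w0_stats (k : ℕ) : occ [b] (w0 k) = 2 ∧ occ [a, b] (w0 k) = 2 * k + 1 ∧
    occ [b, c] (w0 k) = 2 * k + 1 ∧ occ [a, b, c] (w0 k) = k * (2 * k + 1) ∧
    occ [b, a, b] (w0 k) = 1 := by
  have hab : (a : Letter) ≠ b := by decide
  have hbc : (b : Letter) ≠ c := by decide
  have hba : (b : Letter) ≠ a := by decide
  unfold w0
  rw [show (a :: List.replicate (2 * k + 1) c) = [a] ++ List.replicate (2 * k + 1) c from rfl]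
  refine ⟨?_, ?_, ?_, ?_, ?_⟩ <;>
    simp only [occ1, occ2, occ3, occ1_rep, occ2_rep hab, occ2_rep hbc, occ2_rep hba,
      occ3_rep hab, occ3_rep hbc] <;> simp [occ] <;> ring

theorem w1_stats (k : ℕ) : occ [a, b, c] (w1 k) = k * (2 * k + 1) ∧
    occ [b, a, b] (w1 k) = 2 * k + 1 := by
  have hab : (a : Letter) ≠ b := by decide
  have hbc : (b : Letter) ≠ c := by decide
  have hba : (b : Letter) ≠ a := by decide
  unfold w1
  refine ⟨?_, ?_⟩ <;>
    simp only [occ1, occ2, occ3, occ1_rep, occ2_rep hab, occ2_rep hbc, occ2_rep hba,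
      occ3_rep hab, occ3_rep hbc] <;> simp [occ] <;> ring

theorem derP_w0_w1 (k : ℕ) : DerP (w0 k) (w1 k) :=
  ⟨der_w0_w1 k, by rw [(w0_stats k).2.2.2.1, (w1_stats k).1]⟩

/-! ### Words with two letters `b` -/

theorem exists_split : ∀ w : Word, 0 < occ [b] w →
    ∃ u z : Word, w = u ++ [b] ++ z ∧ occ [b] u = 0 := by
  intro w
  induction w with
  | nil => intro h; simp [occ] at h
  | cons x w ih =>
    intro h
    by_cases hx : x = b
    · subst hx
      exact ⟨[], w, by simp, by simp [occ]⟩
    · have h1 : 0 < occ [b] w := by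
        simp only [occ] at h
        rw [if_neg (Ne.symm hx)] at h
        simpa using h
      obtain ⟨u, z, rfl, hu⟩ := ih h1
      refine ⟨x :: u, z, by simp, ?_⟩
      simp only [occ, hu]
      rw [if_neg (Ne.symm hx)]

theorem occ_ab_zero {u : Word} (h : occ [b] u = 0) :
    occ [a, b] u = 0 ∧ occ [b, a] u = 0 ∧ occ [b, c] u = 0 := by
  induction u with
  | nil => simp [occ]
  | cons x u ih =>
    simp only [occ, occ_nil] at h
    have h1 : occ [b] u = 0 := by omega
    have h2 : ¬ b = x := by
      intro hx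
      rw [if_pos hx] at h
      omega
    obtain ⟨g1, g2, g3⟩ := ih h1
    simp only [occ, g1, g2, g3, h1, if_neg h2]
    simp

theorem occ3_zero {u : Word} (h : occ [b] u = 0) :
    occ [a, b, c] u = 0 ∧ occ [b, a, b] u = 0 ∧ occ [b, c, b] u = 0 := by
  induction u with
  | nil => simp [occ]
  | cons x u ih =>
    have h0 := occ_ab_zero (u := u)
    simp only [occ, occ_nil] at h
    have h1 : occ [b] u = 0 := by omega
    have h2 : ¬ b = x := by
      intro hx
      rw [if_pos hx] at h
      omega
    obtain ⟨g1, g2, g3⟩ := ih h1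
    obtain ⟨f1, f2, f3⟩ := h0 h1
    have e1 : occ [a, b, c] (x :: u) = occ [a, b, c] u + (if a = x then occ [b, c] u else 0) := rfl
    have e2 : occ [b, a, b] (x :: u) = occ [b, a, b] u + (if b = x then occ [a, b] u else 0) := rfl
    have e3 : occ [b, c, b] (x :: u) = occ [b, c, b] u + (if b = x then occ [c, b] u else 0) := rfl
    rw [e1, e2, e3, g1, g2, g3, f3, if_neg h2, if_neg h2]
    simp

/-- The key identity. -/
theorem key_identity {w : Word} (h : occ [b] w = 2) :
    2 * occ [a, b, c] w + occ [b, a, b] w * occ [b, c, b] w = occ [a, b] w * occ [b, c] w := by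
  obtain ⟨u, w', rfl, hu⟩ := exists_split w (by omega)
  have h1 : occ [b] w' = 1 := by
    simp only [occ1, hu] at h
    simp [occ] at h
    omega
  obtain ⟨v, z, rfl, hv⟩ := exists_split w' (by omega)
  have hz : occ [b] z = 0 := by
    simp only [occ1, hv] at h1
    simp [occ] at h1
    omega
  obtain ⟨u1, u2, u3⟩ := occ_ab_zero hu
  obtain ⟨v1, v2, v3⟩ := occ_ab_zero hv
  obtain ⟨z1, z2, z3⟩ := occ_ab_zero hz
  obtain ⟨u4, u5, u6⟩ := occ3_zero hu
  obtain ⟨v4, v5, v6⟩ := occ3_zero hv
  obtain ⟨z4, z5, z6⟩ := occ3_zero hz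
  have cb : ∀ x : Word, occ [b] x = 0 → occ [c, b] x = 0 := by
    intro x
    induction x with
    | nil => simp [occ]
    | cons y x ih =>
      intro hx
      simp only [occ, occ_nil] at hx
      have hx1 : occ [b] x = 0 := by omega
      simp only [occ, ih hx1, hx1]
      simp
  have u7 := cb u hu
  have v7 := cb v hv
  have z7 := cb z hz
  simp only [occ1, occ2, occ3, hu, hv, hz, u1, u2, u3, u4, u5, u6, u7, v1, v2, v3, v4, v5, v6, v7,
    z1, z2, z3, z4, z5, z6, z7]
  simp [occ]
  ring

/-- In the class of `w0 k`, with `2k+1` prime, the number of `a` between the two `b` is `1`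
or `2k+1`. -/
theorem class_alpha {k : ℕ} (hq : (2 * k + 1).Prime) {w : Word} (h : DerP (w0 k) w) :
    occ [b] w = 2 ∧ (occ [b, a, b] w = 1 ∨ occ [b, a, b] w = 2 * k + 1) := by
  obtain ⟨⟨n, hn⟩, habc⟩ := h
  obtain ⟨h1, h2, h3⟩ := steps_inv hn
  obtain ⟨g1, g2, g3, g4, g5⟩ := w0_stats k
  have hb : occ [b] w = 2 := by rw [← h1, g1]
  refine ⟨hb, ?_⟩
  have hkey := key_identity hb
  rw [← h2, ← h3, ← habc, g2, g3, g4] at hkey
  have hprod : occ [b, a, b] w * occ [b, c, b] w = 2 * k + 1 := by nlinarith [hkey]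
  exact (Nat.dvd_prime hq).1 (Dvd.intro _ hprod)

theorem steps_dist {w w' : Word} (h : DerR w w') : Steps (dist w w') w w' := Nat.sInf_mem h

/-- **Main result.** For every `N` there are `n ≥ N` and an irreducible transformation
`w ⇒_𝔓 w'` of order `n` which is not expressible by irreducible transformations of
order `< n`. -/
theorem result : ∀ N : ℕ, ∃ n : ℕ, N ≤ n ∧ ∃ w w' : Word,
    Irred w w' ∧ dist w w' = n ∧ ¬ Expressible n w w' := by
  intro N
  obtain ⟨q, hqN, hq⟩ := Nat.exists_infinite_primes (2 * N + 3)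
  obtain ⟨k, hk⟩ : ∃ k, q = 2 * k + 1 := by
    rcases hq.eq_two_or_odd' with h | h
    · omega
    · exact h
  subst hk
  have hkN : N ≤ k := by omega
  have hk1 : 1 ≤ k := by omega
  -- distances between the two parts of the class
  set D : Set ℕ := {d | ∃ x y : Word, DerP (w0 k) x ∧ DerP (w0 k) y ∧ occ [b, a, b] x = 1 ∧
    occ [b, a, b] y = 2 * k + 1 ∧ d = dist x y} with hD
  have hne : D.Nonempty :=
    ⟨dist (w0 k) (w1 k), w0 k, w1 k, ⟨DerR.refl _, rfl⟩, derP_w0_w1 k, (w0_stats k).2.2.2.2,
      (w1_stats k).2, rfl⟩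
  obtain ⟨x, y, hx, hy, hx1, hy1, hn⟩ := Nat.sInf_mem hne
  have hmin : ∀ x' y' : Word, DerP (w0 k) x' → DerP (w0 k) y' → occ [b, a, b] x' = 1 →
      occ [b, a, b] y' = 2 * k + 1 → dist x y ≤ dist x' y' := by
    intro x' y' h1 h2 h3 h4
    rw [← hn]
    exact Nat.sInf_le ⟨x', y', h1, h2, h3, h4, rfl⟩
  have hxy : DerP x y := hx.symm.trans hy
  have hzero : ∀ u v : Word, DerR u v → dist u v = 0 → u = v := by
    intro u v huv h0
    have h1 := steps_dist huv
    rw [h0] at h1
    cases h1
    rfl
  refine ⟨dist x y, ?_, x, y, ⟨?_, hxy, ?_⟩, rfl, ?_⟩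
  · have h1 := steps_bab (steps_dist hxy.1) (by rw [(class_alpha hq hx).1])
    rw [hx1, hy1] at h1
    omega
  · rintro rfl
    omega
  · rintro ⟨w, hwx, hwy, h1, h2, h3⟩
    have hw := hx.trans h1
    rcases (class_alpha hq hw).2 with h4 | h4
    · have h5 := hmin w y hw hy h4 hy1
      exact hwx (hzero x w h1.1 (by omega)).symm
    · have h5 := hmin x w hx hw hx1 h4
      exact hwy (hzero w y h2.1 (by omega))
  · intro hexp
    have key : ∀ z : Word, Relation.ReflTransGen
        (fun u v => Irred u v ∧ dist u v < dist x y) x z →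
        DerP (w0 k) z ∧ occ [b, a, b] z = 1 := by
      intro z hz
      induction hz with
      | refl => exact ⟨hx, hx1⟩
      | @tail u v _ huv ih =>
        obtain ⟨g1, g2⟩ := ih
        obtain ⟨⟨_, h2, _⟩, h3⟩ := huv
        have hv := g1.trans h2
        refine ⟨hv, ?_⟩
        rcases (class_alpha hq hv).2 with h4 | h4
        · exact h4
        · have := hmin u v g1 hv g2 h4
          omega
    have := (key y hexp).2
    omega

end Pool.Agent.Results.MP_24e294_lc.IndispensableHighOrder
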